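import Pool.Agent.Q274.LR.Main
import Pool.Agent.Q274.LR.TW

/-!
# Decision trees with nested tests and tests of bounded twin-width
-/

set_option autoImplicit false

namespace Pool.Agent.Q330.LRT

open Finset Pool.Agent.H630R2.LR Pool.Agent.Y422.TW Pool.Agent.Q274.LR

variable {X Y : Type}

/-- The rows of the matrix form a chain with respect to inclusion, as for comparisons
`a x ≤ b y`, or `a x < b y`, of elements of a linear order. -/
def Nested (Q : X → Y → Bool) : Prop :=
  ∀ x x', (∀ y, Q x y = true → Q x' y = true) ∨ (∀ y, Q x' y = true → Q x y = true)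

/-- The entries of the matrix are adjacencies in a finite graph of twin-width at most `w`. -/
def LowTwinWidth (w : ℕ) (Q : X → Y → Bool) : Prop :=
  ∃ (V : Type) (_ : Fintype V) (G : SimpleGraph V) (f : X → V) (g : Y → V),
    TwinWidthLE G w ∧ ∀ x y, Q x y = true ↔ G.Adj (f x) (g y)

/-- `Decides κ F`: the matrix `F` is computed by a decision tree of cost at most `κ`. The tests are
nested matrices, of cost one, and matrices of twin-width at most `w`, of cost
`⌈log₂ (2 w + 4)⌉`; the cost of a tree is the maximum of the sums along the branches. -/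
inductive Decides : ℕ → (X → Y → Bool) → Prop
  | const (κ : ℕ) (v : Bool) : Decides κ fun _ _ => v
  | nested (κ : ℕ) (Q G H : X → Y → Bool) : Nested Q → Decides κ G → Decides κ H →
      Decides (1 + κ) fun x y => if Q x y = true then G x y else H x y
  | twinWidth (κ w : ℕ) (Q G H : X → Y → Bool) : LowTwinWidth w Q → Decides κ G → Decides κ H →
      Decides (Nat.clog 2 (2 * w + 4) + κ) fun x y => if Q x y = true then G x y else H x y

theorem exists_median (a : X → ℕ) (S : Finset X) (hS : S.Nonempty) :
    ∃ x0 ∈ S, S.card ≤ 2 * (S.filter fun x => a x ≤ a x0).card ∧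
      S.card ≤ 2 * (S.filter fun x => a x0 ≤ a x).card := by
  classical
  obtain ⟨xm, hxm, hmax⟩ := exists_max_image S a hS
  have hne : (S.filter fun x0 => S.card ≤ 2 * (S.filter fun x => a x ≤ a x0).card).Nonempty := by
    refine ⟨xm, mem_filter.2 ⟨hxm, ?_⟩⟩
    rw [filter_true_of_mem hmax]
    omega
  obtain ⟨x0, hx0, hmin⟩ := exists_min_image _ a hne
  rw [mem_filter] at hx0
  refine ⟨x0, hx0.1, hx0.2, ?_⟩
  have hsplit := card_filter_add_card_filter_not (s := S) (p := fun x => a x0 ≤ a x)
  rcases (S.filter fun x => ¬ a x0 ≤ a x).eq_empty_or_nonempty with h | h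
  · rw [h, card_empty] at hsplit
    omega
  · obtain ⟨x1, hx1, hmax1⟩ := exists_max_image _ a h
    rw [mem_filter] at hx1
    have hfail : ¬ S.card ≤ 2 * (S.filter fun x => a x ≤ a x1).card := by
      intro hc
      have := hmin x1 (mem_filter.2 ⟨hx1.1, hc⟩)
      exact hx1.2 this
    have hle : (S.filter fun x => ¬ a x0 ≤ a x).card ≤ (S.filter fun x => a x ≤ a x1).card := by
      refine card_le_card fun x hx => ?_
      have := hmax1 x hx
      rw [mem_filter] at hx ⊢
      exact ⟨hx.1, this⟩
    omega

theorem rect_nested [Fintype Y] {Q : X → Y → Bool} (hQ : Nested Q) (S : Finset X) (T : Finset Y)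
    (hS : S.Nonempty) :
    ∃ A ⊆ S, ∃ B ⊆ T, S.card ≤ 2 * A.card ∧ T.card ≤ 2 * B.card ∧
      ∃ v, ∀ a ∈ A, ∀ b ∈ B, Q a b = v := by
  classical
  have hle : ∀ x x' : X, (univ.filter fun y => Q x y = true).card ≤
      (univ.filter fun y => Q x' y = true).card → ∀ y, Q x y = true → Q x' y = true := by
    intro x x' hc
    rcases hQ x x' with h | h
    · exact h
    · have hsub : (univ.filter fun y => Q x' y = true) ⊆ (univ.filter fun y => Q x y = true) := by
        intro y hy
        rw [mem_filter] at hy ⊢
        exact ⟨mem_univ _, h y hy.2⟩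
      have heq := eq_of_subset_of_card_le hsub hc
      intro y hy
      have : y ∈ univ.filter fun y => Q x' y = true := by
        rw [heq]
        exact mem_filter.2 ⟨mem_univ _, hy⟩
      exact (mem_filter.1 this).2
  obtain ⟨x0, -, h1, h2⟩ := exists_median (fun x => (univ.filter fun y => Q x y = true).card) S hS
  have hsplit := card_filter_add_card_filter_not (s := T) (p := fun y => Q x0 y = true)
  rcases Nat.lt_or_ge (2 * (T.filter fun y => Q x0 y = true).card) T.card with h | h
  · refine ⟨_, filter_subset _ _, T.filter fun y => ¬ Q x0 y = true, filter_subset _ _, h1,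
      by omega, false, ?_⟩
    intro a ha b hb
    rw [mem_filter] at ha hb
    by_contra hcon
    rw [Bool.not_eq_false] at hcon
    exact hb.2 (hle a x0 ha.2 b hcon)
  · refine ⟨_, filter_subset _ _, T.filter fun y => Q x0 y = true, filter_subset _ _, h2,
      h, true, ?_⟩
    intro a ha b hb
    rw [mem_filter] at ha hb
    exact hle x0 a ha.2 b hb.2

theorem card_chain {s a b m n : ℕ} (h1 : s ≤ m * a) (h2 : a ≤ n * b) : s ≤ m * n * b := by
  calc s ≤ m * a := h1
    _ ≤ m * (n * b) := Nat.mul_le_mul_left _ h2
    _ = m * n * b := by ring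

theorem pos_of {s m a : ℕ} (hs : 0 < s) (h : s ≤ m * a) : 0 < a := by
  rcases Nat.eq_zero_or_pos a with h0 | h0
  · rw [h0, mul_zero] at h
    omega
  · exact h0

/-- The rectangle property of decision trees. -/
theorem rect_tree [Fintype X] [Fintype Y] {κ : ℕ} {F : X → Y → Bool} (h : Decides κ F) :
    RectProp F (2 ^ κ) := by
  classical
  induction h with
  | const κ v =>
    intro S T _ _
    have h1 : 1 ≤ 2 ^ κ := Nat.one_le_two_pow
    exact ⟨S, Subset.rfl, T, Subset.rfl, Nat.le_mul_of_pos_left _ h1,
      Nat.le_mul_of_pos_left _ h1, v, fun _ _ _ _ => rfl⟩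
  | nested κ Q G H hQ _ _ ihG ihH =>
    intro S T hS hT
    obtain ⟨A, hA, B, hB, hSA, hTB, v, hv⟩ := rect_nested hQ S T hS
    have hA0 : A.Nonempty := card_pos.1 (pos_of (card_pos.2 hS) hSA)
    have hB0 : B.Nonempty := card_pos.1 (pos_of (card_pos.2 hT) hTB)
    cases v with
    | true =>
      obtain ⟨A', hA', B', hB', h1, h2, v', hv'⟩ := ihG A B hA0 hB0
      refine ⟨A', hA'.trans hA, B', hB'.trans hB, ?_, ?_, v', fun a ha b hb => ?_⟩
      · rw [pow_add, pow_one]; exact card_chain hSA h1
      · rw [pow_add, pow_one]; exact card_chain hTB h2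
      · have hq := hv a (hA' ha) b (hB' hb)
        show (if Q a b = true then G a b else H a b) = v'
        rw [if_pos hq]
        exact hv' a ha b hb
    | false =>
      obtain ⟨A', hA', B', hB', h1, h2, v', hv'⟩ := ihH A B hA0 hB0
      refine ⟨A', hA'.trans hA, B', hB'.trans hB, ?_, ?_, v', fun a ha b hb => ?_⟩
      · rw [pow_add, pow_one]; exact card_chain hSA h1
      · rw [pow_add, pow_one]; exact card_chain hTB h2
      · have hq := hv a (hA' ha) b (hB' hb)
        show (if Q a b = true then G a b else H a b) = v'
        rw [if_neg (by rw [hq]; decide)]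
        exact hv' a ha b hb
  | twinWidth κ w Q G H hQ _ _ ihG ihH =>
    intro S T hS hT
    obtain ⟨V, _, Gr, f, g, hw, hadj⟩ := hQ
    obtain ⟨A, hA, B, hB, hSA, hTB, v, hv⟩ := rect_of_tww Gr w hw f g Q hadj S T hS hT
    have hm : 2 * (w + 2) ≤ 2 ^ Nat.clog 2 (2 * w + 4) := by
      have := Nat.le_pow_clog (b := 2) (by norm_num) (2 * w + 4)
      omega
    have hSA' := hSA.trans (Nat.mul_le_mul_right A.card hm)
    have hTB' := hTB.trans (Nat.mul_le_mul_right B.card hm)
    have hA0 : A.Nonempty := card_pos.1 (pos_of (card_pos.2 hS) hSA)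
    have hB0 : B.Nonempty := card_pos.1 (pos_of (card_pos.2 hT) hTB)
    cases v with
    | true =>
      obtain ⟨A', hA', B', hB', h1, h2, v', hv'⟩ := ihG A B hA0 hB0
      refine ⟨A', hA'.trans hA, B', hB'.trans hB, ?_, ?_, v', fun a ha b hb => ?_⟩
      · rw [pow_add]; exact card_chain hSA' h1
      · rw [pow_add]; exact card_chain hTB' h2
      · have hq := hv a (hA' ha) b (hB' hb)
        show (if Q a b = true then G a b else H a b) = v'
        rw [if_pos hq]
        exact hv' a ha b hb
    | false =>
      obtain ⟨A', hA', B', hB', h1, h2, v', hv'⟩ := ihH A B hA0 hB0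
      refine ⟨A', hA'.trans hA, B', hB'.trans hB, ?_, ?_, v', fun a ha b hb => ?_⟩
      · rw [pow_add]; exact card_chain hSA' h1
      · rw [pow_add]; exact card_chain hTB' h2
      · have hq := hv a (hA' ha) b (hB' hb)
        show (if Q a b = true then G a b else H a b) = v'
        rw [if_neg (by rw [hq]; decide)]
        exact hv' a ha b hb

/-- The protocol. -/
theorem proto_tree [Fintype X] [Fintype Y] {κ : ℕ} {F : X → Y → Bool} (h : Decides κ F) :
    Proto F (1 + 2 * Nat.clog 2 (2 ^ (κ + 1) * (comm F).rank + 3) *
      Nat.clog 2 ((comm F).rank + 1)) := by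
  have h1 := proto_of_rect F _ (rect_tree h)
  have e : 2 * 2 ^ κ * (comm F).rank = 2 ^ (κ + 1) * (comm F).rank := by rw [pow_succ]; ring
  rw [e] at h1
  exact h1

theorem decides_mono {κ κ' : ℕ} {F : X → Y → Bool} (h : Decides κ F) (hκ : κ ≤ κ') :
    Decides κ' F := by
  induction h generalizing κ' with
  | const κ v => exact Decides.const κ' v
  | nested κ Q G H hQ _ _ ihG ihH =>
    obtain ⟨n, rfl⟩ := Nat.exists_eq_add_of_le hκ
    rw [add_assoc]
    exact Decides.nested _ Q G H hQ (ihG (Nat.le_add_right _ _)) (ihH (Nat.le_add_right _ _))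
  | twinWidth κ w Q G H hQ _ _ ihG ihH =>
    obtain ⟨n, rfl⟩ := Nat.exists_eq_add_of_le hκ
    rw [add_assoc]
    exact Decides.twinWidth _ w Q G H hQ (ihG (Nat.le_add_right _ _))
      (ihH (Nat.le_add_right _ _))

/-- Boolean functions of nested matrices. -/
theorem decides_comb : ∀ (t : ℕ) (Q : Fin t → X → Y → Bool) (_ : ∀ i, Nested (Q i))
    (h : (Fin t → Bool) → Bool), Decides t fun x y => h fun i => Q i x y := by
  intro t
  induction t with
  | zero =>
    intro Q _ h
    have e : (fun (x : X) (y : Y) => h fun i => Q i x y) = fun _ _ => h (fun i => i.elim0) := by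
      funext x y
      congr 1
      funext i
      exact i.elim0
    rw [e]
    exact Decides.const 0 _
  | succ t ih =>
    intro Q hQ h
    have h1 := ih (fun i => Q i.succ) (fun i => hQ i.succ) (fun b => h (Fin.cons true b))
    have h2 := ih (fun i => Q i.succ) (fun i => hQ i.succ) (fun b => h (Fin.cons false b))
    have h3 := Decides.nested t (Q 0) _ _ (hQ 0) h1 h2
    rw [add_comm] at h3
    have e : (fun (x : X) (y : Y) => h fun i => Q i x y) =
        fun x y => if Q 0 x y = true then h (Fin.cons true fun i => Q (Fin.succ i) x y)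
          else h (Fin.cons false fun i => Q (Fin.succ i) x y) := by
      funext x y
      have e1 : (fun i => Q i x y) = Fin.cons (Q 0 x y) (fun i => Q (Fin.succ i) x y) := by
        funext i
        refine Fin.cases ?_ (fun j => ?_) i
        · rfl
        · rfl
      rw [e1]
      cases Q 0 x y <;> rfl
    rw [e]
    exact h3

/-- Protocols are decision trees with nested tests. -/
theorem decides_of_iterate (owner : List Bool → Bool) (a : List Bool → X → Bool)
    (b : List Bool → Y → Bool) (out : List Bool → Bool) : ∀ (c : ℕ) (s : List Bool),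
    Decides c fun x y => out (Nat.iterate
      (fun t : List Bool => t ++ [if owner t then a t x else b t y]) c s) := by
  intro c
  induction c with
  | zero => intro s; exact Decides.const 0 (out s)
  | succ c ih =>
    intro s
    have hn : Nested fun x y => if owner s then a s x else b s y := by
      intro x x'
      cases owner s with
      | true =>
        simp only [if_true]
        cases a s x with
        | true => right; intro _ _; rfl
        | false => left; intro _ h; exact absurd h (by decide)
      | false =>
        left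
        intro y h
        exact h
    have h3 := Decides.nested c _ _ _ hn (ih (s ++ [true])) (ih (s ++ [false]))
    rw [add_comm] at h3
    have e : (fun (x : X) (y : Y) => out (Nat.iterate
        (fun t : List Bool => t ++ [if owner t then a t x else b t y]) (c + 1) s)) =
        fun x y => if (if owner s then a s x else b s y) = true then
          out (Nat.iterate (fun t : List Bool => t ++ [if owner t then a t x else b t y]) c
            (s ++ [true])) else
          out (Nat.iterate (fun t : List Bool => t ++ [if owner t then a t x else b t y]) c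
            (s ++ [false])) := by
      funext x y
      rw [Function.iterate_succ_apply]
      cases hv : (if owner s then a s x else b s y) with
      | true => rw [if_pos rfl]
      | false => rw [if_neg (by decide)]
    rw [e]
    exact h3

theorem decides_of_proto {F : X → Y → Bool} {c : ℕ} (h : Proto F c) : Decides c F := by
  obtain ⟨owner, a, b, out, hF⟩ := h
  have h1 := decides_of_iterate owner a b out c []
  have e : (fun (x : X) (y : Y) => out (Nat.iterate
      (fun t : List Bool => t ++ [if owner t then a t x else b t y]) c [])) = F := by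
    funext x y
    exact hF x y
  rw [e] at h1
  exact h1

end Pool.Agent.Q330.LRT
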